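import Pool.Agent.T9h48.EP.E7

/-!
# The vertices of `2_31`
-/

set_option autoImplicit false

open Set
open scoped RealInnerProductSpace

namespace Pool.Agent.T9h98.EP

open Pool.Agent.T9h98.DC Pool.Agent.T9h48.EP

/-- the vertices of `2_31` -/
theorem rd7_V : dat.V = {x : E 7 | ∃ z : Fin 7 → ℤ, (∀ i, x i = z i) ∧
    ∑ i, z i ^ 2 = 4 ∧ ∀ i, (z i + z (i + 1) + z (i + 3)) % 2 = 0} := by
  have h0 : dat.V = em '' {v | Q v} := rfl
  rw [h0]
  have key : ∀ z : Fin 7 → ℤ, Q z ↔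
      (∑ i, z i ^ 2 = 4 ∧ ∀ i, (z i + z (i + 1) + z (i + 3)) % 2 = 0) := by
    intro z
    have h1 : ∑ i, z i ^ 2 = dt z z := by
      rw [Fin.sum_univ_seven]
      unfold dt
      ring
    rw [h1]
    unfold Q
    refine and_congr_right fun _ => ?_
    constructor
    · rintro ⟨a, b, c, d, e, f, g⟩
      intro i
      refine cases7 i ?_ ?_ ?_ ?_ ?_ ?_ ?_
      · show (z 0 + z 1 + z 3) % 2 = 0
        omega
      · show (z 1 + z 2 + z 4) % 2 = 0
        omega
      · show (z 2 + z 3 + z 5) % 2 = 0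
        omega
      · show (z 3 + z 4 + z 6) % 2 = 0
        omega
      · show (z 4 + z 5 + z 0) % 2 = 0
        omega
      · show (z 5 + z 6 + z 1) % 2 = 0
        omega
      · show (z 6 + z 0 + z 2) % 2 = 0
        omega
    · intro h
      have a : (z 0 + z 1 + z 3) % 2 = 0 := h 0
      have b : (z 1 + z 2 + z 4) % 2 = 0 := h 1
      have c : (z 2 + z 3 + z 5) % 2 = 0 := h 2
      have d : (z 3 + z 4 + z 6) % 2 = 0 := h 3
      have e : (z 4 + z 5 + z 0) % 2 = 0 := h 4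
      have f : (z 5 + z 6 + z 1) % 2 = 0 := h 5
      have g : (z 6 + z 0 + z 2) % 2 = 0 := h 6
      refine ⟨?_, ?_, ?_, ?_, ?_, ?_, ?_⟩ <;> omega
  ext x
  constructor
  · rintro ⟨z, hz, rfl⟩
    exact ⟨z, fun i => em_apply z i, (key z).1 hz⟩
  · rintro ⟨z, h0, h1⟩
    refine ⟨z, (key z).2 h1, ?_⟩
    ext i
    rw [em_apply, h0 i]

end Pool.Agent.T9h98.EP
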