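import Pool.Agent.T9h63.EP.E8

/-!
# The root datum of `E₈` as a definition (proofs by helper63)
-/

set_option autoImplicit false

open Set
open scoped RealInnerProductSpace

namespace Pool.Agent.T9h98.EP

open Pool.Agent.T9h98.DC Pool.Agent.T9h63.EP

/-- the root datum of `E₈` -/
noncomputable def rd8 : RD 8 where
  α := fun i => em (Pool.Agent.T9h63.EP.A i)
  ω := em ![0, 0, 0, 0, 0, 0, 0, 4]
  V := VV
  c := 4
  cpos := by norm_num
  hd := by norm_num
  norm := by
    intro i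
    rw [inner_em]
    have h : ∀ i : Fin 8, ∑ k, Pool.Agent.T9h63.EP.A i k * Pool.Agent.T9h63.EP.A i k = 8 := by decide
    rw [h i]
    norm_num
  adj := by
    intro i j hij
    rw [inner_em]
    have h : ∀ i j : Fin 8, j < i →
        ∑ k, Pool.Agent.T9h63.EP.A i k * Pool.Agent.T9h63.EP.A j k =
        if ((i : ℕ) = 4 ∧ (j : ℕ) = 2) ∨ ((i : ℕ) ≠ 4 ∧ (j : ℕ) + 1 = i) then -4 else 0 := by
      decide
    rw [h i j hij]
    split_ifs <;> norm_num
  lin := lin_A
  fin := fin_VV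
  mem := ⟨_, by unfold Ok; decide, rfl⟩
  nrm := by
    have h : ∀ z : Fin 8 → ℤ, Ok z → ‖em z‖ = 4 := by
      intro z hz
      have h1 : ‖em z‖ ^ 2 = 16 := by
        rw [← real_inner_self_eq_norm_sq, inner_em, hz.1]
        norm_num
      nlinarith [norm_nonneg (em z)]
    rintro v ⟨z, hz, rfl⟩
    rw [h z hz, h _ (by unfold Ok; decide)]
  refl := by
    rintro i v ⟨z, hz, rfl⟩
    obtain ⟨m, hm, hok⟩ := refl_ok i z hz
    refine ⟨_, hok, ?_⟩
    rw [← em_sub_smul]
    congr 2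
    rw [inner_em, hm]
    push_cast
    ring
  ring := by
    intro i
    rw [inner_em]
    have h : ∀ i : Fin 8, ∑ k, (![0, 0, 0, 0, 0, 0, 0, 4] : Fin 8 → ℤ) k *
        Pool.Agent.T9h63.EP.A i k = if (i : ℕ) = 0 then 4 else 0 := by decide
    rw [h i]
    split_ifs <;> norm_num
  dom := by
    rintro v ⟨z, hz, rfl⟩ h
    congr 1
    refine dom_ok z hz fun i => ?_
    have := h i
    rw [inner_em] at this
    exact_mod_cast this

/-- the vertices of `2_41` -/
theorem rd8_V : rd8.V = {x : E 8 | ∃ z : Fin 8 → ℤ, (∀ i, x i = z i) ∧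
    ∑ i, z i ^ 2 = 16 ∧ (∀ i j, (z i - z j) % 2 = 0) ∧ (∑ i, z i) % 4 = 0} := by
  have h0 : rd8.V = VV := rfl
  rw [h0]
  ext x
  constructor
  · rintro ⟨z, ⟨h1, h2, h3⟩, rfl⟩
    refine ⟨z, fun i => em_apply z i, ?_, fun i j => ?_, h3⟩
    · rw [← h1]
      exact Finset.sum_congr rfl fun i _ => by ring
    · have a := h2 i
      have b := h2 j
      omega
  · rintro ⟨z, h0, h1, h2, h3⟩
    refine ⟨z, ⟨?_, fun i => h2 i 0, h3⟩, ?_⟩
    · rw [← h1]
      exact Finset.sum_congr rfl fun i _ => by ring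
    · ext i
      rw [em_apply, h0 i]

end Pool.Agent.T9h98.EP
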