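import Pool.Agent.T9h98.EP.Main
import Pool.Agent.T9h29.DC.Dim
import Pool.Agent.T9h95.EP.Span
import Pool.Agent.T9h71.EP.Cone
import Pool.Agent.T9h22.EP.Grp
import Pool.Agent.T9h66.EP.Fc
import Pool.Agent.T9h89.EP.Thin
import Pool.Agent.T9h96.EP.Wide
import Pool.Agent.T9h46.EP.Ct
import Pool.Agent.T9h63.EP.E8
import Pool.Agent.T9h48.EP.E7

/-! Project EP: assembly (all pieces). -/

namespace Pool.Agent.T9h98.EP

open Pool.Agent.T9h98.DC

theorem all : Main :=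
  main Pool.Agent.T9h95.EP.span Pool.Agent.T9h71.EP.cone Pool.Agent.T9h22.EP.grp
    Pool.Agent.T9h66.EP.fc Pool.Agent.T9h29.DC.fiso Pool.Agent.T9h89.EP.thin
    Pool.Agent.T9h96.EP.wide Pool.Agent.T9h46.EP.ct

end Pool.Agent.T9h98.EP
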