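import Pool.Agent.T9h98.DC.Polytope

/-!
# Project EP (helper98, MP_727bc7_co): the polytopes `2_31` (E₇) and `2_41` (E₈)

Goal: these are geometrically 4-orbit and 5-orbit polytopes of dimensions 7 and 8, so `N_4 ≥ 8` and
`N_5 ≥ 9` (known: `k + 2`; demicubes: `k + 3`).

A root datum `RD d`: simple roots `α 0, …, α (d-1)` of `R^d`, with the diagram

    0 - 1 - 2 - 4 - 5 - ⋯ - (d-1)
            |
            3

(`anc i` = the nodes between `0` and `i` without `i` = `{j < i, j ≠ 3}`), a dominant vector `ω` orthogonal to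
all roots but `α 0` and a finite set `V` of vectors stable under the reflections in the simple roots, in
which `ω` is the only dominant one. The polytope is `P = conv V`. `T` is `Conn` if `anc i ⊆ T` for all `i ∈ T`;
`VT T` = elements of `V` in `ω + span (α i, i ∈ T)`.
-/

set_option autoImplicit false

open Set
open scoped RealInnerProductSpace

namespace Pool.Agent.T9h98.EP

open Pool.Agent.T9h98.DC

/-- the root datum -/
structure RD (d : ℕ) where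
  α : Fin d → E d
  ω : E d
  V : Set (E d)
  c : ℝ
  cpos : 0 < c
  hd : 6 ≤ d
  norm : ∀ i, ⟪α i, α i⟫ = 2 * c
  adj : ∀ i j : Fin d, j < i →
    ⟪α i, α j⟫ = if ((i : ℕ) = 4 ∧ (j : ℕ) = 2) ∨ ((i : ℕ) ≠ 4 ∧ (j : ℕ) + 1 = i) then -c else 0
  lin : LinearIndependent ℝ α
  fin : V.Finite
  mem : ω ∈ V
  nrm : ∀ v ∈ V, ‖v‖ = ‖ω‖
  refl : ∀ i, ∀ v ∈ V, v - (⟪v, α i⟫ / c) • α i ∈ V
  ring : ∀ i : Fin d, ⟪ω, α i⟫ = if (i : ℕ) = 0 then c else 0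
  dom : ∀ v ∈ V, (∀ i, 0 ≤ ⟪v, α i⟫) → v = ω

namespace RD

variable {d : ℕ} (D : RD d)

/-- the polytope -/
def P : Set (E d) := convexHull ℝ D.V

/-- nodes between `0` and `i`, without `i` -/
def anc (i : Fin d) : Finset (Fin d) := Finset.univ.filter fun j => j < i ∧ (j : ℕ) ≠ 3

/-- connected sets of nodes which contain `0` (or are empty) -/
def Conn (T : Finset (Fin d)) : Prop := ∀ i ∈ T, anc i ⊆ T

/-- elements of `V` in `ω + span (α i, i ∈ T)` -/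
def VT (T : Finset (Fin d)) : Set (E d) := {v ∈ D.V | D.ω - v ∈ Submodule.span ℝ (D.α '' (T : Set (Fin d)))}

/-- the faces -/
def H (T : Finset (Fin d)) : Set (E d) := convexHull ℝ (D.VT T)

theorem refl_aux (i : Fin d) (v : E d) :
    (v - (⟪v, D.α i⟫ / D.c) • D.α i) - (⟪v - (⟪v, D.α i⟫ / D.c) • D.α i, D.α i⟫ / D.c) • D.α i = v := by
  have hc := D.cpos.ne'
  rw [inner_sub_left, real_inner_smul_left, D.norm i, sub_sub, ← add_smul]
  have : ⟪v, D.α i⟫ / D.c + (⟪v, D.α i⟫ - ⟪v, D.α i⟫ / D.c * (2 * D.c)) / D.c = 0 := by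
    field_simp
    ring
  rw [this, zero_smul, sub_zero]

/-- the reflection in `α i` -/
noncomputable def s (i : Fin d) : E d ≃ₗᵢ[ℝ] E d where
  toFun v := v - (⟪v, D.α i⟫ / D.c) • D.α i
  invFun v := v - (⟪v, D.α i⟫ / D.c) • D.α i
  map_add' x y := by
    rw [inner_add_left, add_div, add_smul]
    abel
  map_smul' r x := by
    rw [real_inner_smul_left, RingHom.id_apply, smul_sub, smul_smul, mul_div_assoc]
  left_inv v := D.refl_aux i v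
  right_inv v := D.refl_aux i v
  norm_map' v := by
    have hc := D.cpos.ne'
    show ‖v - (⟪v, D.α i⟫ / D.c) • D.α i‖ = ‖v‖
    have h : ‖v - (⟪v, D.α i⟫ / D.c) • D.α i‖ ^ 2 = ‖v‖ ^ 2 := by
      rw [norm_sub_sq_real, real_inner_smul_right, norm_smul, mul_pow, ← real_inner_self_eq_norm_sq (D.α i),
        D.norm i, Real.norm_eq_abs, sq_abs]
      field_simp
      ring
    exact (sq_eq_sq₀ (norm_nonneg _) (norm_nonneg _)).1 h

theorem s_apply (i : Fin d) (v : E d) : D.s i v = v - (⟪v, D.α i⟫ / D.c) • D.α i := rfl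

/-- the group generated by the reflections in the `α i`, `i ∈ T` -/
noncomputable def W (T : Finset (Fin d)) : Subgroup (E d ≃ₗᵢ[ℝ] E d) :=
  Subgroup.closure (D.s '' (T : Set (Fin d)))

end RD

/-- **E8.** `c = 4`; `V` = all integral vectors with `|x|² = 16`, all entries of the same parity, sum divisible
by 4 (`2 E₈`, 2160 vectors); `ω = (0,0,0,0,0,0,0,4)`, simple roots (with `e_1, …, e_8`)
`α 0 = e1-e2-e3-e4-e5-e6-e7+e8`, `α 1 = 2e2-2e1`, `α 2 = 2e3-2e2`, `α 3 = 2e1+2e2`, `α 4 = 2e4-2e3`,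
`α 5 = 2e5-2e4`, `α 6 = 2e6-2e5`, `α 7 = 2e7-2e6`.
`dom`: `|x1| ≤ x2 ≤ … ≤ x7`, `x2+…+x7-x1 ≤ x8`. If `x8 ≥ 4` then `x8 = 4` and the others are `0` (norm). If
`x8 ≤ 3` then `x3+…+x7 ≤ 3`, so `x3 = 0`, `x1 = x2 = 0`, all entries even, so `x4=x5=x6=0`, `x7, x8 ≤ 2`,
`|x|² ≤ 8`, contradiction. -/
def S_E8 : Prop := Nonempty (RD 8)

/-- **E7.** `c = 2`; `V` = all integral vectors of `R^7` with `|x|² = 4` and with even sum over each of the
seven lines of the Fano plane `{1,2,4}, {2,3,5}, {3,4,6}, {4,5,7}, {5,6,1}, {6,7,2}, {7,1,3}` (126 vectors: `± 2 e_i`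
and sign vectors supported on the complements of the lines), `ω` and the `α i` in `V` (find a
simple system of this root system with the diagram above: e.g. by computer, take the roots positive on
a generic vector; `α 0` is the end of the arm of length 2, `ω` the highest root; any other description of
the same root system in `R^7` is fine). -/
def S_E7 : Prop := Nonempty (RD 7)

section pieces

/-- **SPAN** (basic lemmas).  (i) `exists_dual`: `x ↦ (⟪α i, x⟫)_i` is bijective.  (ii) `u i = ω - ∑_(j ∈ anc i) α j`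
and `u i - α i` are in `V` (strong induction: `u 0 = ω`, `u i = s_p (u p)` where `p` = parent of `i`:
`anc i = anc p ∪ {p}`; `⟪u i, α i⟫ = c` as only the parent is adjacent to `i` in `anc i`); so for `T`
`Conn` `α i ∈ vectorSpan (VT T)` for all `i ∈ T`; finrank `= #T`.  (iii) interior of `P`. -/
def S_SPAN : Prop := ∀ (d : ℕ) (D : RD d),
  (∀ f : Fin d → ℝ, ∃ a : E d, ∀ i, ⟪D.α i, a⟫ = f i) ∧
  (∀ T, RD.Conn T → vectorSpan ℝ (D.VT T) = Submodule.span ℝ (D.α '' (T : Set (Fin d))) ∧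
    Module.finrank ℝ (vectorSpan ℝ (D.VT T)) = T.card) ∧
  (interior D.P).Nonempty ∧ Submodule.span ℝ D.V = ⊤

/-- **CONE** (uses `S_SPAN` as hypothesis for `ρ` with `⟪α i, ρ⟫ = 1`).  (i) For `v ∈ V` take `u` in the finite set
`{u ∈ V | u - v ∈ cone (α)}` with `⟪u, ρ⟫` maximal; if `⟪u, α i⟫ < 0` then `s_i u` is also in it and larger; so
`u = ω` by `dom`.  (ii) `v ∈ VT T` with `⟪v, α i⟫ ≥ 0` on `T` is `ω`: `β = ω - v = ∑ k i α i`, `k ≥ 0`, supported in `T`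
(linear independence), `|ω|² = |v|² + 2⟪v, β⟫ + |β|² ≥ |v|² + |β|²`.  (iii) the maximum of a functional `a`,
nonnegative on the `α i`, `i ∈ T`, over `VT T` is attained exactly on `VT {i ∈ T | ⟪a, α i⟫ = 0}`. -/
def S_CONE : Prop := S_SPAN → ∀ (d : ℕ) (D : RD d),
  (∀ v ∈ D.V, ∃ k : Fin d → ℝ, (∀ i, 0 ≤ k i) ∧ D.ω - v = ∑ i, k i • D.α i) ∧
  (∀ T, ∀ v ∈ D.VT T, (∀ i ∈ T, 0 ≤ ⟪v, D.α i⟫) → v = D.ω) ∧
  ∀ T, ∀ a : E d, (∀ i ∈ T, 0 ≤ ⟪a, D.α i⟫) →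
    {v ∈ D.VT T | ∀ u ∈ D.VT T, ⟪a, u⟫ ≤ ⟪a, v⟫} = D.VT (T.filter fun i => ⟪a, D.α i⟫ = 0)

/-- **GRP** (uses `S_SPAN`, `S_CONE` as hypotheses).  (i) `g ∈ W T` maps `V` onto `V`, and `g v - v ∈ span`: closure
induction; so `g '' VT U = VT U` for `T ⊆ U`.  (ii) `W univ` is finite (it acts faithfully on `V`, `span V = ⊤`); take
`g ∈ W T` with `⟪g a, ρ⟫` maximal: `⟪g a, α i⟫ ≥ 0` on `T`.  (iii) for `v ∈ VT T` this `g` maps `v` to `ω`
by `S_CONE` (ii).  (iv) `VT T = VT T°`, `T° = {i ∈ T | anc i ⊆ T}` (is `Conn`): for `i ∈ T \ T°` `α i` is orthogonal to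
`ω` and to `α j`, `j ∈ T°`, so `W T` preserves `ω + span (α j, j ∈ T°)`; use (iii). -/
def S_GRP : Prop := S_SPAN → S_CONE → ∀ (d : ℕ) (D : RD d),
  (∀ T, ∀ g ∈ D.W T, g '' D.V = D.V ∧ ∀ U, T ⊆ U → g '' D.VT U = D.VT U) ∧
  (∀ T, ∀ a : E d, ∃ g ∈ D.W T, ∀ i ∈ T, 0 ≤ ⟪g a, D.α i⟫) ∧
  (∀ T, ∀ v ∈ D.VT T, ∃ g ∈ D.W T, g v = D.ω) ∧
  ∀ T : Finset (Fin d), RD.Conn (T.filter fun i => RD.anc i ⊆ T) ∧
    D.VT T = D.VT (T.filter fun i => RD.anc i ⊆ T)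

/-- **FC** (uses `S_SPAN`, `S_CONE`, `S_GRP` as hypotheses).  (i) every face is the hull of its vertices
(`hull_vert` in `T9h98/DC/Cls.lean`).  (ii) `V ∩ H T = VT T`.  (iii) `H T` is a face, `T` `Conn`: functional `a` with
`⟪α i, a⟫ = 0` on `T` and `1` outside, `S_CONE` (iii) for `univ`.  (iv) a face `F ⊆ H T` is mapped by some
`g ∈ W T` to `H T'`, `T' ⊆ T`, `T'` `Conn`: make the functional of `F` nonnegative on `α i`, `i ∈ T`. -/
def S_FC : Prop := S_SPAN → S_CONE → S_GRP → ∀ (d : ℕ) (D : RD d),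
  (∀ F, IsFace D.P F → F = convexHull ℝ (D.V ∩ F)) ∧
  (∀ T, D.V ∩ D.H T = D.VT T) ∧
  (∀ T, RD.Conn T → IsFace D.P (D.H T)) ∧
  ∀ T, RD.Conn T → ∀ F, IsFace D.P F → F ⊆ D.H T →
    ∃ g ∈ D.W T, ∃ T', T' ⊆ T ∧ RD.Conn T' ∧ g '' F = D.H T'

/-- **THIN** (uses `S_SPAN`, `S_CONE`, `S_GRP` as hypotheses).  `T ∌ 3` or `T = {0,1,2,3}` (a path from `0`): all
distances in `H T` satisfy `dist² < 4 c`.  Proof. Vertices suffice; by `S_GRP` (iii) one of them is `ω`; `ω - v =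
β = ∑ k i α i`, `k ≥ 0`; `|ω - v|² = 2⟪ω, β⟫ = 2 c k 0` as `|v| = |ω|`; along the path `j_0 = 0, j_1, …, j_m`
`|β|² = c (k_0² + ∑ (k_r - k_(r+1))² + k_m²)` (`k_r = k (j_r)`; induction); if `k_0 ≥ 2` then `2 k_0 ≤ k_0²`, so all the
other squares vanish, `k_0 = k_m = 0`. -/
def S_THIN : Prop := S_SPAN → S_CONE → S_GRP → ∀ (d : ℕ) (D : RD d) (T : Finset (Fin d)),
  ((∀ i ∈ T, (i : ℕ) ≠ 3) ∨ ∀ i ∈ T, (i : ℕ) < 4) → RD.Conn T →
  ∀ x ∈ D.H T, ∀ y ∈ D.H T, dist x y ^ 2 < 4 * D.c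

/-- **WIDE.**  If `0,…,4 ∈ T` then `v = ω - 2 α 0 - 2 α 1 - 2 α 2 - α 3 - α 4 ∈ VT T` (successive reflections in
`α 0, α 1, α 2, α 3, α 4, α 2, α 1, α 0`), `|ω - v|² = 4 c`. -/
def S_WIDE : Prop := ∀ (d : ℕ) (D : RD d) (T : Finset (Fin d)), (∀ i : Fin d, (i : ℕ) < 5 → i ∈ T) →
  ∃ x ∈ D.H T, ∃ y ∈ D.H T, 4 * D.c ≤ dist x y ^ 2

/-- **CT** (uses all others as hypotheses).  `T = {0,1,2,3}`: a face `F ⊋ H T` is wide.  Proof.  `F` is the set where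
`a` is maximal; `⟪a, α i⟫ = 0` on `T` (`S_SPAN` (ii)); take `h ∈ W {5, 6, …}` making `h a` nonnegative on
`α 5, α 6, …` (`S_GRP` (ii)); `h` fixes `ω`, `α i`, `i ∈ T`, so all points of `H T`; replace `F, a` by `h F`, `h a`.
`u = ω - α 0 - α 1 - α 2 ∈ VT T`, `u - α 4 = s 4 u ∈ V`, so `⟪a, α 4⟫ ≥ 0`. So `V ∩ F = VT T'`, `T' = {⟪a, α i⟫ = 0}`
(`S_CONE` (iii), `univ`), `= VT T'°` (`S_GRP` (iv)); if `4 ∉ T'` then `T'° = T`, `F = H T`; so `4 ∈ T'`: `S_WIDE`. -/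
def S_CT : Prop := S_SPAN → S_CONE → S_GRP → S_FC → S_WIDE → ∀ (d : ℕ) (D : RD d) (T : Finset (Fin d)),
  (∀ i, i ∈ T ↔ (i : ℕ) < 4) → ∀ F, IsFace D.P F → D.H T ⊂ F →
  ∃ x ∈ F, ∃ y ∈ F, 4 * D.c ≤ dist x y ^ 2

end pieces

/-- the theorem -/
def Main : Prop := ∀ (d : ℕ) (D : RD d), IsKOrbit (d - 3) D.P

end Pool.Agent.T9h98.EP
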