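import Pool.Agent.T9h98.EP.Defs
import Pool.Agent.T9h98.DC.Defs

set_option autoImplicit false

open Set
open scoped RealInnerProductSpace

namespace Pool.Agent.T9h98.EP

open Pool.Agent.T9h98.DC RD

/-! ### combinatorics of the connected sets -/

def A (d k : ℕ) : Finset (Fin d) := Finset.univ.filter fun j => (j : ℕ) < k

def B (d k : ℕ) : Finset (Fin d) := Finset.univ.filter fun j => (j : ℕ) < k ∧ (j : ℕ) ≠ 3

def e (i : ℕ) : ℕ := if i < 3 then i else i + 1

def TT (d t i : ℕ) : Finset (Fin d) := if i < t then B d (e i) else A d i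

theorem mem_A {d k : ℕ} {j : Fin d} : j ∈ A d k ↔ (j : ℕ) < k := by simp [A]

theorem mem_B {d k : ℕ} {j : Fin d} : j ∈ B d k ↔ (j : ℕ) < k ∧ (j : ℕ) ≠ 3 := by simp [B]

theorem mem_anc {d : ℕ} {i j : Fin d} : j ∈ anc i ↔ (j : ℕ) < i ∧ (j : ℕ) ≠ 3 := by
  simp only [anc, Finset.mem_filter, Finset.mem_univ, true_and, Fin.lt_def]

theorem card_A {d k : ℕ} (h : k ≤ d) : (A d k).card = k := by
  rw [A, Fin.card_filter_val_lt]
  omega

theorem card_B {d k : ℕ} (h : k ≤ d) : (B d k).card = if k ≤ 3 then k else k - 1 := by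
  split_ifs with hk
  · have : B d k = A d k := by
      ext j
      rw [mem_A, mem_B]
      omega
    rw [this, card_A h]
  · have : B d k = (A d k).erase ⟨3, by omega⟩ := by
      ext j
      have h3 : j = ⟨3, by omega⟩ ↔ (j : ℕ) = 3 := Fin.ext_iff
      simp only [Finset.mem_erase, mem_A, mem_B, ne_eq, h3]
      tauto
    rw [this, Finset.card_erase_of_mem (by rw [mem_A]; simp only; omega), card_A h]

theorem conn_A (d k : ℕ) : Conn (A d k) := by
  intro i hi j hj
  rw [mem_A] at hi ⊢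
  rw [mem_anc] at hj
  omega

theorem conn_B (d k : ℕ) : Conn (B d k) := by
  intro i hi j hj
  rw [mem_B] at hi ⊢
  rw [mem_anc] at hj
  omega

theorem conn_TT (d t i : ℕ) : Conn (TT d t i) := by
  unfold TT
  split_ifs
  · exact conn_B _ _
  · exact conn_A _ _

theorem card_TT {d t i : ℕ} (_ht : t ≤ d) (hi : i ≤ d) : (TT d t i).card = i := by
  unfold TT
  split_ifs with h
  · unfold e
    split_ifs with h3
    · rw [card_B hi, if_pos (by omega)]
    · rw [card_B (by omega)]
      split_ifs <;> omega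
  · exact card_A hi

theorem TT_mono {d t : ℕ} (_ht : 4 ≤ t) {i j : ℕ} (h : i ≤ j) : TT d t i ⊆ TT d t j := by
  intro x
  unfold TT e
  split_ifs <;> simp only [mem_A, mem_B] <;> omega

/-- classification of the connected sets -/
theorem conn_cases {d : ℕ} (hd : 6 ≤ d) (T : Finset (Fin d)) (hT : Conn T) (m : ℕ) (hm : T.card = m)
    (hmd : m < d) :
    (⟨3, by omega⟩ ∈ T → 4 ≤ m ∧ T = A d m) ∧ (⟨3, by omega⟩ ∉ T → T = B d (e m)) := by
  constructor
  · intro h3
    have h1 : ∀ i ∈ T, A d (i + 1) ⊆ T := by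
      intro i hi j hj
      rw [mem_A] at hj
      by_cases hj3 : (j : ℕ) = 3
      · have : j = ⟨3, by omega⟩ := Fin.ext hj3
        rw [this]
        exact h3
      · rcases Nat.lt_or_ge (j : ℕ) i with h | h
        · exact hT i hi (mem_anc.2 ⟨h, hj3⟩)
        · have : j = i := Fin.ext (by omega)
          rw [this]
          exact hi
    have h2 : ∀ i ∈ T, (i : ℕ) + 1 ≤ m := by
      intro i hi
      have := Finset.card_le_card (h1 i hi)
      rw [card_A i.2, hm] at this
      exact this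
    refine ⟨by simpa using h2 _ h3, Finset.eq_of_subset_of_card_le (fun i hi => ?_) ?_⟩
    · rw [mem_A]
      exact h2 i hi
    · rw [card_A hmd.le, hm]
  · intro h3
    have hne : ∀ i ∈ T, (i : ℕ) ≠ 3 := by
      intro i hi h
      have : i = ⟨3, by omega⟩ := Fin.ext h
      rw [this] at hi
      exact h3 hi
    have h1 : ∀ i ∈ T, B d (i + 1) ⊆ T := by
      intro i hi j hj
      rw [mem_B] at hj
      rcases Nat.lt_or_ge (j : ℕ) i with h | h
      · exact hT i hi (mem_anc.2 ⟨h, hj.2⟩)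
      · have : j = i := Fin.ext (by omega)
        rw [this]
        exact hi
    have h2 : ∀ i ∈ T, (i : ℕ) < e m := by
      intro i hi
      have h4 := Finset.card_le_card (h1 i hi)
      have h5 := hne i hi
      rw [card_B i.2, hm] at h4
      unfold e
      split_ifs at h4 ⊢ <;> omega
    refine Finset.eq_of_subset_of_card_le (fun i hi => ?_) ?_
    · rw [mem_B]
      exact ⟨h2 i hi, hne i hi⟩
    · rw [hm]
      unfold e
      split_ifs
      · rw [card_B hmd.le]
        split_ifs <;> omega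
      · rw [card_B (by omega)]
        split_ifs <;> omega

/-! ### geometry -/

variable {d : ℕ} (D : RD d)

theorem conn_univ : Conn (Finset.univ : Finset (Fin d)) := fun _ _ => Finset.subset_univ _

theorem vt_mono {T U : Finset (Fin d)} (h : T ⊆ U) : D.VT T ⊆ D.VT U :=
  fun _ hv => ⟨hv.1, Submodule.span_mono (image_mono (Finset.coe_subset.2 h)) hv.2⟩

theorem h_mono {T U : Finset (Fin d)} (h : T ⊆ U) : D.H T ⊆ D.H U := convexHull_mono (vt_mono D h)

theorem W_mono {T U : Finset (Fin d)} (h : T ⊆ U) : D.W T ≤ D.W U :=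
  Subgroup.closure_mono (image_mono (Finset.coe_subset.2 h))

theorem image_hull' (g : E d ≃ₗᵢ[ℝ] E d) (M : Set (E d)) :
    g '' convexHull ℝ M = convexHull ℝ (g '' M) :=
  (g.toLinearEquiv.toLinearMap).image_convexHull M

theorem vt_univ (hS : S_SPAN) : D.VT Finset.univ = D.V := by
  have h1 := ((hS d D).2.1 Finset.univ conn_univ)
  have h2 : Submodule.span ℝ (D.α '' ((Finset.univ : Finset (Fin d)) : Set (Fin d))) = ⊤ := by
    rw [← h1.1]
    apply Submodule.eq_top_of_finrank_eq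
    rw [h1.2]
    simp
  ext v
  constructor
  · exact fun h => h.1
  · intro h
    refine ⟨h, ?_⟩
    rw [h2]
    trivial

theorem P_eq (hS : S_SPAN) : D.P = D.H Finset.univ := by
  unfold RD.P RD.H
  rw [vt_univ D hS]

theorem image_P (hS : S_SPAN) (hC : S_CONE) (hG : S_GRP) {T : Finset (Fin d)} (g : E d ≃ₗᵢ[ℝ] E d)
    (hg : g ∈ D.W T) : g '' D.P = D.P := by
  unfold RD.P
  rw [image_hull', ((hG hS hC d D).1 T g hg).1]

theorem image_H (hS : S_SPAN) (hC : S_CONE) (hG : S_GRP) {T U : Finset (Fin d)} (h : T ⊆ U)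
    (g : E d ≃ₗᵢ[ℝ] E d) (hg : g ∈ D.W T) : g '' D.H U = D.H U := by
  unfold RD.H
  rw [image_hull', ((hG hS hC d D).1 T g hg).2 U h]

theorem finrank_H (hS : S_SPAN) {T : Finset (Fin d)} (hT : Conn T) :
    Module.finrank ℝ (vectorSpan ℝ (D.H T)) = T.card := by
  have h1 : vectorSpan ℝ (D.H T) = vectorSpan ℝ (D.VT T) := by
    unfold RD.H
    rw [← direction_affineSpan, affineSpan_convexHull, direction_affineSpan]
  rw [h1]
  exact ((hS d D).2.1 T hT).2

theorem finrank_image (g : E d ≃ₗᵢ[ℝ] E d) (F : Set (E d)) :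
    Module.finrank ℝ (vectorSpan ℝ (g '' F)) = Module.finrank ℝ (vectorSpan ℝ F) := by
  have h1 := AffineMap.map_vectorSpan (k := ℝ)
    (g.toLinearEquiv.toLinearMap).toAffineMap (s := F)
  have h2 : vectorSpan ℝ (g '' F) =
      Submodule.map (g.toLinearEquiv : E d →ₗ[ℝ] E d) (vectorSpan ℝ F) := by
    exact h1.symm
  rw [h2]
  exact LinearEquiv.finrank_map_eq g.toLinearEquiv _

theorem exists_nf (hS : S_SPAN) (hC : S_CONE) (hG : S_GRP) (hF : S_FC) (hI : S_FISO)
    (Φ : Flag D.P) (n : ℕ) (hn : n ≤ d) :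
    ∃ g ∈ D.W Finset.univ, ∃ T : ℕ → Finset (Fin d), (∀ i, Conn (T i)) ∧ Monotone T ∧
      (∀ i, d ≤ i → T i = Finset.univ) ∧
      ∀ i : Fin d, d ≤ n + i → g '' Φ.face i = D.H (T i) := by
  induction n with
  | zero =>
    exact ⟨1, one_mem _, fun _ => Finset.univ, fun _ => conn_univ, monotone_const, fun _ _ => rfl,
      fun i hi => absurd i.2 (by omega)⟩
  | succ n ih =>
    obtain ⟨g, hg, T, hT, hm, hu, hH⟩ := ih (by omega)
    have hgP := image_P D hS hC hG g hg
    obtain ⟨m, hmd⟩ : ∃ m : Fin d, (m : ℕ) = d - n - 1 := ⟨⟨d - n - 1, by omega⟩, rfl⟩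
    have hsub : g '' Φ.face m ⊆ D.H (T (m + 1)) := by
      rcases Nat.eq_zero_or_pos n with hn0 | hn0
      · rw [hu _ (by omega), ← P_eq D hS]
        conv_rhs => rw [← hgP]
        exact image_mono (Φ.isFace m).2.subset
      · have h1 := hH ⟨m + 1, by omega⟩ (by simp only; omega)
        rw [← h1]
        exact image_mono (Φ.mono (by rw [Fin.le_def]; simp))
    have hface : IsFace D.P (g '' Φ.face m) := hI d D.P _ g.toIsometryEquiv hgP (Φ.isFace m)
    obtain ⟨h, hh, T', hT', hc, he⟩ := (hF hS hC hG d D).2.2.2 (T (m + 1)) (hT _) _ hface hsub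
    refine ⟨h * g, mul_mem (W_mono D (Finset.subset_univ _) hh) hg,
      fun i => if i ≤ m then T' else T i, ?_, ?_, ?_, ?_⟩
    · intro i
      simp only
      split_ifs
      · exact hc
      · exact hT i
    · intro i j hij
      simp only
      split_ifs with h1 h2 h2
      · exact le_rfl
      · exact hT'.trans (hm (by omega))
      · omega
      · exact hm hij
    · intro i hi
      simp only
      rw [if_neg (by omega)]
      exact hu i hi
    · intro i hi
      simp only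
      rw [LinearIsometryEquiv.coe_mul, image_comp]
      rcases Nat.lt_or_ge (m : ℕ) i with h1 | h1
      · rw [if_neg (by omega), hH i (by omega)]
        exact image_H D hS hC hG (hm h1) h hh
      · have : i = m := Fin.ext (by omega)
        rw [if_pos (by omega), this]
        exact he

/-- the type of a flag -/
def Ty (Φ : Flag D.P) (t : ℕ) : Prop :=
  4 ≤ t ∧ t ≤ d ∧ ∃ g ∈ D.W Finset.univ, ∀ i : Fin d, g '' Φ.face i = D.H (TT d t i)

theorem exists_ty (hS : S_SPAN) (hC : S_CONE) (hG : S_GRP) (hF : S_FC) (hI : S_FISO)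
    (Φ : Flag D.P) : ∃ t, Ty D Φ t := by
  classical
  have hd := D.hd
  obtain ⟨g, hg, T, hT, hm, hu, hH⟩ := exists_nf D hS hC hG hF hI Φ d le_rfl
  have hcard : ∀ i : Fin d, (T i).card = i := by
    intro i
    rw [← finrank_H D hS (hT i), ← hH i (by omega), finrank_image]
    exact Φ.dim i
  have hex : ∃ n, (⟨3, by omega⟩ : Fin d) ∈ T n := ⟨d, by rw [hu d le_rfl]; simp⟩
  set t := Nat.find hex with ht
  have h1 : (⟨3, by omega⟩ : Fin d) ∈ T t := Nat.find_spec hex
  have h2 : t ≤ d := Nat.find_min' hex (by rw [hu d le_rfl]; simp)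
  have h3 : 4 ≤ t := by
    rcases Nat.lt_or_ge t d with h | h
    · exact ((conn_cases hd (T t) (hT t) t (hcard ⟨t, h⟩) h).1 h1).1
    · omega
  refine ⟨t, h3, h2, g, hg, fun i => ?_⟩
  rw [hH i (by omega)]
  congr 1
  have h4 := conn_cases hd (T i) (hT i) i (hcard i) i.2
  unfold TT
  split_ifs with h5
  · exact h4.2 (Nat.find_min hex h5)
  · exact (h4.1 (hm (not_lt.1 h5) h1)).2

theorem equiv_of_ty (hS : S_SPAN) (hC : S_CONE) (hG : S_GRP) (Φ Ψ : Flag D.P) (t : ℕ)
    (h1 : Ty D Φ t) (h2 : Ty D Ψ t) : (flagSetoid D.P).r Φ Ψ := by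
  obtain ⟨-, -, g, hg, hg'⟩ := h1
  obtain ⟨-, -, h, hh, hh'⟩ := h2
  have hmem : h⁻¹ * g ∈ D.W Finset.univ := mul_mem (inv_mem hh) hg
  refine ⟨(h⁻¹ * g).toIsometryEquiv, image_P D hS hC hG _ hmem, fun i => ?_⟩
  show (h⁻¹ * g : E d ≃ₗᵢ[ℝ] E d) '' Φ.face i = Ψ.face i
  rw [LinearIsometryEquiv.coe_mul, image_comp, hg' i, ← hh' i, ← image_comp,
    ← LinearIsometryEquiv.coe_mul, inv_mul_cancel]
  simp

theorem not_lt_ty (hS : S_SPAN) (hC : S_CONE) (hG : S_GRP) (hF : S_FC) (hI : S_FISO)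
    (hThin : S_THIN) (hWide : S_WIDE) (hCT : S_CT) (Φ Ψ : Flag D.P) (t t' : ℕ)
    (h1 : Ty D Φ t) (h2 : Ty D Ψ t') (h : (flagSetoid D.P).r Φ Ψ) : ¬ t < t' := by
  intro htt
  have hd := D.hd
  obtain ⟨ht4, -, g, hg, hg'⟩ := h1
  obtain ⟨-, ht'd, g₂, hg₂, hg₂'⟩ := h2
  obtain ⟨f, hf1, hf2⟩ := h
  -- the isometry which maps the standard flag of type t to the one of type t'
  set φ : E d ≃ᵢ E d := (g.symm.toIsometryEquiv.trans f).trans g₂.toIsometryEquiv with hφ
  have hφc : ∀ M : Set (E d), φ '' M = g₂ '' (f '' (g.symm '' M)) := by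
    intro M
    rw [← image_comp, ← image_comp]
    rfl
  have hgP := image_P D hS hC hG g hg
  have hg₂P := image_P D hS hC hG g₂ hg₂
  have hgs : ∀ M : Set (E d), g.symm '' (g '' M) = M := by
    intro M
    rw [← image_comp]
    simp
  have hφP : φ '' D.P = D.P := by
    rw [hφc]
    conv_lhs => rw [← hgP]
    rw [hgs, hf1, hg₂P]
  have hφF : ∀ i : Fin d, φ '' D.H (TT d t i) = D.H (TT d t' i) := by
    intro i
    rw [hφc, ← hg' i, hgs, hf2 i, hg₂' i]
  rcases Nat.lt_or_ge t 5 with h5 | h5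
  · have ht : t = 4 := by omega
    subst ht
    have e1 : TT d 4 4 = A d 4 := by
      unfold TT
      rw [if_neg (by omega)]
    have e2 : TT d t' 4 = B d 5 := by
      unfold TT e
      rw [if_pos htt, if_neg (by omega)]
    have h6 := hφF ⟨4, by omega⟩
    simp only at h6
    rw [e1, e2] at h6
    set G := D.H (B d 6) with hGdef
    have hGf : IsFace D.P G := (hF hS hC hG d D).2.2.1 _ (conn_B d 6)
    have hφs : ∀ M : Set (E d), φ.symm '' (φ '' M) = M := by
      intro M
      rw [← image_comp]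
      simp
    have hφsP : φ.symm '' D.P = D.P := by
      conv_lhs => rw [← hφP]
      rw [hφs]
    have h7 := hI d D.P G φ.symm hφsP hGf
    have h8 : D.H (A d 4) = φ.symm '' D.H (B d 5) := by rw [← h6, hφs]
    have h9 : D.H (B d 5) ⊂ G := by
      refine lt_of_le_of_ne (h_mono D fun x hx => ?_) fun heq => ?_
      · rw [mem_B] at hx ⊢
        omega
      · have h10 := finrank_H D hS (conn_B d 5)
        rw [heq, hGdef, finrank_H D hS (conn_B d 6), card_B (by omega), card_B (by omega)] at h10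
        norm_num at h10
    have h10 : D.H (A d 4) ⊂ φ.symm '' G := by
      rw [h8]
      refine ⟨image_mono h9.1, fun hcon => h9.2 ?_⟩
      exact (image_subset_image_iff φ.symm.injective).1 hcon
    obtain ⟨x, hx, y, hy, hxy⟩ := hCT hS hC hG hF hWide d D (A d 4) (fun i => mem_A) _ h7 h10
    obtain ⟨x', hx', rfl⟩ := hx
    obtain ⟨y', hy', rfl⟩ := hy
    rw [φ.symm.dist_eq] at hxy
    have h11 := hThin hS hC hG d D (B d 6) (Or.inl fun i hi => (mem_B.1 hi).2) (conn_B d 6)
      x' hx' y' hy'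
    exact absurd h11 (not_lt.2 hxy)
  · have e1 : TT d t t = A d t := by
      unfold TT
      rw [if_neg (by omega)]
    have e2 : TT d t' t = B d (e t) := by
      unfold TT
      rw [if_pos htt]
    have h6 := hφF ⟨t, by omega⟩
    simp only at h6
    rw [e1, e2] at h6
    obtain ⟨x, hx, y, hy, hxy⟩ := hWide d D (A d t) (fun i hi => mem_A.2 (by omega))
    have h7 := hThin hS hC hG d D (B d (e t)) (Or.inl fun i hi => (mem_B.1 hi).2) (conn_B _ _)
      (φ x) (by rw [← h6]; exact mem_image_of_mem _ hx) (φ y)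
      (by rw [← h6]; exact mem_image_of_mem _ hy)
    rw [φ.dist_eq] at h7
    exact absurd h7 (not_lt.2 hxy)

theorem exists_flag (hS : S_SPAN) (hC : S_CONE) (hG : S_GRP) (hF : S_FC) (t : ℕ)
    (h4 : 4 ≤ t) (ht : t ≤ d) : ∃ Φ : Flag D.P, Ty D Φ t := by
  refine ⟨⟨fun i => D.H (TT d t i), fun i => (hF hS hC hG d D).2.2.1 _ (conn_TT _ _ _), fun i => ?_,
    fun i j hij => h_mono D (TT_mono h4 hij)⟩, h4, ht, 1, one_mem _, fun i => ?_⟩
  · rw [finrank_H D hS (conn_TT _ _ _), card_TT ht i.2.le]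
  · simp

theorem main (hS : S_SPAN) (hC : S_CONE) (hG : S_GRP) (hF : S_FC) (hI : S_FISO)
    (hThin : S_THIN) (hWide : S_WIDE) (hCT : S_CT) : Main := by
  intro d D
  refine ⟨⟨⟨D.fin.toFinset, ?_⟩, (hS d D).2.2.1⟩, ?_⟩
  · rw [Set.Finite.coe_toFinset]
    rfl
  · choose s hs using exists_ty D hS hC hG hF hI
    have hinv : ∀ Φ Ψ : Flag D.P, (flagSetoid D.P).r Φ Ψ → s Φ = s Ψ := by
      intro Φ Ψ h
      have h2 := not_lt_ty D hS hC hG hF hI hThin hWide hCT Φ Ψ _ _ (hs Φ) (hs Ψ) h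
      have h3 := not_lt_ty D hS hC hG hF hI hThin hWide hCT Ψ Φ _ _ (hs Ψ) (hs Φ)
        ((flagSetoid D.P).iseqv.symm h)
      omega
    let f : Quotient (flagSetoid D.P) → Set.Icc 4 d :=
      Quotient.lift (fun Φ => (⟨s Φ, (hs Φ).1, (hs Φ).2.1⟩ : Set.Icc 4 d))
        (fun Φ Ψ h => Subtype.ext (hinv Φ Ψ h))
    have hf : Function.Bijective f := by
      constructor
      · intro a b
        refine Quotient.inductionOn₂ a b fun Φ Ψ h => ?_
        have h2 : s Φ = s Ψ := congrArg Subtype.val h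
        exact Quotient.sound (equiv_of_ty D hS hC hG Φ Ψ (s Φ) (hs Φ) (h2 ▸ hs Ψ))
      · rintro ⟨t, ht1, ht2⟩
        obtain ⟨Φ, hΦ⟩ := exists_flag D hS hC hG hF t ht1 ht2
        refine ⟨Quotient.mk _ Φ, Subtype.ext ?_⟩
        show s Φ = t
        have hr : (flagSetoid D.P).r Φ Φ := (flagSetoid D.P).iseqv.refl Φ
        have h2 := not_lt_ty D hS hC hG hF hI hThin hWide hCT Φ Φ _ _ (hs Φ) hΦ hr
        have h3 := not_lt_ty D hS hC hG hF hI hThin hWide hCT Φ Φ _ _ hΦ (hs Φ) hr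
        omega
    rw [Nat.card_eq_of_bijective f hf, Nat.card_eq_fintype_card]
    simp

end Pool.Agent.T9h98.EP
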